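import Mathlib

namespace Pool.Agent.Results.MP_e645df_co.Full

open Set

/-- The rectangle `R_{a,b} = [0, a-1] × [0, b-1]`. -/
def R (a b : ℕ) : Set (ℕ × ℕ) := {p | p.1 < a ∧ p.2 < b}

/-- A zero-set: a finite union of rectangles `R_{a,b}` with `a, b ≥ 1`. -/
def IsZeroSet (Z : Set (ℕ × ℕ)) : Prop :=
  ∃ I : Finset (ℕ × ℕ), (∀ p ∈ I, 1 ≤ p.1 ∧ 1 ≤ p.2) ∧ Z = ⋃ p ∈ I, R p.1 p.2

/-- The number of points of `A` on the horizontal line through `x` (possibly infinite). -/
noncomputable def row (x : ℕ × ℕ) (A : Set (ℕ × ℕ)) : ℕ∞ := {u | (u, x.2) ∈ A}.encard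

/-- The number of points of `A` on the vertical line through `x` (possibly infinite). -/
noncomputable def col (x : ℕ × ℕ) (A : Set (ℕ × ℕ)) : ℕ∞ := {v | (x.1, v) ∈ A}.encard

/-- The pair of (possibly infinite) counts `(u, v)` lies in `Z`. -/
def InZ (Z : Set (ℕ × ℕ)) (u v : ℕ∞) : Prop := ∃ p ∈ Z, (p.1 : ℕ∞) = u ∧ (p.2 : ℕ∞) = v

/-- The growth map. -/
def T (Z A : Set (ℕ × ℕ)) : Set (ℕ × ℕ) := A ∪ {x | ¬ InZ Z (row x A) (col x A)}

/-- `A` spans. -/
def Spans (Z A : Set (ℕ × ℕ)) : Prop := ⋃ t : ℕ, (T Z)^[t] A = univ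

/-- The spanning time `min {t | T^t A = ℤ₊²}` (infinite if there is no such `t`). -/
noncomputable def tau (Z A : Set (ℕ × ℕ)) : ℕ∞ := ⨅ (t : ℕ) (_ : (T Z)^[t] A = univ), (t : ℕ∞)

/-- The maximal spanning time over finite spanning sets. -/
noncomputable def mu (Z : Set (ℕ × ℕ)) : ℕ∞ :=
  ⨆ (A : Set (ℕ × ℕ)) (_ : A.Finite ∧ Spans Z A), tau Z A

/-- `s` is the side of the largest square in `Z`. -/
def IsSide (Z : Set (ℕ × ℕ)) (s : ℕ) : Prop := R s s ⊆ Z ∧ ¬ R (s + 1) (s + 1) ⊆ Z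

structure Dyn (P : ℕ → ℕ → ℕ → Prop) (D : ℕ∞ → ℕ∞ → Prop) : Prop where
  step : ∀ t a b, P (t + 1) a b ↔ P t a b ∨ D {a' | P t a' b}.encard {b' | P t a b'}.encard
  up : ∀ u v u' v', u ≤ u' → v ≤ v' → D u v → D u' v'

variable {P : ℕ → ℕ → ℕ → Prop} {D : ℕ∞ → ℕ∞ → Prop}

lemma Dyn.swap (h : Dyn P D) : Dyn (fun t b a => P t a b) (fun v u => D u v) :=
  ⟨fun t b a => h.step t a b, fun _ _ _ _ h1 h2 h3 => h.up _ _ _ _ h2 h1 h3⟩

def CC (P : ℕ → ℕ → ℕ → Prop) (D : ℕ∞ → ℕ∞ → Prop) (r t : ℕ) : Set ℕ :=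
  {a | D r {b' | P t a b'}.encard}

lemma CC_mono (h : Dyn P D) (r t : ℕ) : CC P D r t ⊆ CC P D r (t + 1) := fun a ha =>
  h.up _ _ _ _ le_rfl (encard_le_encard fun b hb => (h.step t a b).2 (Or.inl hb)) ha

noncomputable def phi (P : ℕ → ℕ → ℕ → Prop) (D : ℕ∞ → ℕ∞ → Prop) (s r t : ℕ) : ℕ :=
  (min (s : ℕ∞) (CC P D r t).encard).toNat

lemma phi_cast (s r t : ℕ) : (phi P D s r t : ℕ∞) = min (s : ℕ∞) (CC P D r t).encard :=
  ENat.coe_toNat (ne_top_of_le_ne_top (ENat.coe_ne_top s) (min_le_left _ _))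

lemma phi_le (s r t : ℕ) : phi P D s r t ≤ s := by
  have := phi_cast (P := P) (D := D) s r t
  exact_mod_cast this.trans_le (min_le_left _ _)

lemma phi_mono (h : Dyn P D) (s r : ℕ) : Monotone (phi P D s r) := by
  apply monotone_nat_of_le_succ
  intro t
  have : (phi P D s r t : ℕ∞) ≤ phi P D s r (t + 1) := by
    rw [phi_cast, phi_cast]
    exact min_le_min le_rfl (encard_le_encard (CC_mono h r t))
  exact_mod_cast this

lemma CC_eq (h : Dyn P D) {s r t : ℕ} (e : phi P D s r (t + 1) = phi P D s r t)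
    (hl : (CC P D r t).encard < s) : CC P D r (t + 1) = CC P D r t := by
  have h1 := phi_cast (P := P) (D := D) s r t
  have h2 := phi_cast (P := P) (D := D) s r (t + 1)
  rw [e, h1, min_eq_right hl.le] at h2
  have h3 : (CC P D r (t + 1)).encard ≤ (CC P D r t).encard := by
    rcases min_choice (s : ℕ∞) (CC P D r (t + 1)).encard with g | g
    · rw [g] at h2; exact absurd h2 hl.ne
    · rw [g] at h2; exact h2.ge
  exact ((finite_of_encard_le_coe hl.le).eq_of_subset_of_encard_le (CC_mono h r t) h3).symm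

lemma stable (h : Dyn P D) {s t b : ℕ} (hs : {a | P (t + 1) a b}.encard < s)
    (e : {a | P (t + 1) a b}.encard = {a | P t a b}.encard)
    (hφ : ∀ r < s, phi P D s r (t + 1) = phi P D s r t) :
    {a | P (t + 2) a b} = {a | P (t + 1) a b} := by
  obtain ⟨r, hr⟩ : ∃ r : ℕ, (r : ℕ∞) = {a | P (t + 1) a b}.encard :=
    ⟨_, ENat.coe_toNat (ne_top_of_lt hs)⟩
  have hrs : r < s := by rw [← hr] at hs; exact_mod_cast hs
  have hsub : CC P D r t ⊆ {a | P (t + 1) a b} := fun a ha =>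
    (h.step t a b).2 (Or.inr (by rw [← e, ← hr]; exact ha))
  have hc := CC_eq h (hφ r hrs) ((encard_le_encard hsub).trans_lt hs)
  ext a
  constructor
  · intro ha
    rcases (h.step (t + 1) a b).1 ha with g | g
    · exact g
    · rw [← hr] at g
      exact hsub (hc ▸ g)
  · exact fun ha => (h.step (t + 1) a b).2 (Or.inl ha)

lemma window (h : Dyn P D) {s t : ℕ} (b : ℕ)
    (hφ : ∀ r < s, phi P D s r (t + (s + 1)) = phi P D s r t) (j : ℕ) (hj : j ≤ s + 1)
    (hs : {a | P (t + j) a b}.encard < s) :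
    (j : ℕ∞) ≤ {a | P (t + j) a b}.encard ∨ {a | P (t + j + 1) a b} = {a | P (t + j) a b} := by
  induction j with
  | zero => left; simp
  | succ j ih =>
    have hm : {a | P (t + j) a b}.encard ≤ {a | P (t + j + 1) a b}.encard :=
      encard_le_encard fun a ha => (h.step _ a b).2 (Or.inl ha)
    have hφ' : ∀ r < s, phi P D s r (t + j + 1) = phi P D s r (t + j) := fun r hr => by
      have a1 := phi_mono h s r (show t ≤ t + j by omega)
      have a2 := phi_mono h s r (show t + j ≤ t + j + 1 by omega)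
      have a3 := phi_mono h s r (show t + j + 1 ≤ t + (s + 1) by omega)
      have := hφ r hr
      omega
    rcases hm.eq_or_lt with e | e
    · exact Or.inr (stable h hs e.symm hφ')
    · rcases ih (by omega) (hm.trans_lt hs) with g | g
      · left
        push_cast
        exact Order.add_one_le_of_lt (g.trans_lt e)
      · rw [g] at e; exact absurd e (lt_irrefl _)

lemma fixpt (h : Dyn P D) {s t : ℕ} (hD : D s s)
    (h1 : ∀ r < s, phi P D s r (t + (s + 1)) = phi P D s r t)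
    (h2 : ∀ r < s, phi (fun t b a => P t a b) (fun v u => D u v) s r (t + (s + 1)) =
      phi (fun t b a => P t a b) (fun v u => D u v) s r t) (a b : ℕ)
    (hab : P (t + (s + 1) + 1) a b) : P (t + (s + 1)) a b := by
  have ns : ¬ ((s + 1 : ℕ) : ℕ∞) < s := by norm_cast; omega
  by_cases c1 : {a | P (t + (s + 1)) a b}.encard < s
  · rcases window h b h1 (s + 1) le_rfl c1 with g | g
    · exact absurd (g.trans_lt c1) ns
    · have : a ∈ {a | P (t + (s + 1) + 1) a b} := hab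
      rw [g] at this; exact this
  by_cases c2 : {b | P (t + (s + 1)) a b}.encard < s
  · rcases window h.swap a h2 (s + 1) le_rfl c2 with g | g
    · exact absurd (g.trans_lt c2) ns
    · have : b ∈ {b | P (t + (s + 1) + 1) a b} := hab
      rw [g] at this; exact this
  have d1 : (s : ℕ∞) ≤ {a | P (t + s) a b}.encard := by
    by_contra hc
    rcases window h b h1 s (by omega) (not_le.1 hc) with g | g
    · exact hc g
    · exact c1 (by rw [← add_assoc, g]; exact not_le.1 hc)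
  have d2 : (s : ℕ∞) ≤ {b | P (t + s) a b}.encard := by
    by_contra hc
    rcases window h.swap a h2 s (by omega) (not_le.1 hc) with g | g
    · exact hc g
    · exact c2 (by rw [← add_assoc, g]; exact not_le.1 hc)
  exact (h.step (t + s) a b).2 (Or.inr (h.up _ _ _ _ d1 d2 hD))

lemma exists_fix (h : Dyn P D) {s : ℕ} (hD : D s s) :
    ∃ t ≤ (2 * s ^ 2 + 1) * (s + 1), ∀ a b, P (t + 1) a b → P t a b := by
  set Φ : ℕ → ℕ := fun t => ∑ r ∈ Finset.range s, phi P D s r t +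
    ∑ r ∈ Finset.range s, phi (fun t b a => P t a b) (fun v u => D u v) s r t with hΦ
  have hb : ∀ t, Φ t ≤ 2 * s ^ 2 := fun t => by
    have a1 := Finset.sum_le_card_nsmul (Finset.range s) (fun r => phi P D s r t) s
      fun r _ => phi_le s r t
    have a2 := Finset.sum_le_card_nsmul (Finset.range s)
      (fun r => phi (fun t b a => P t a b) (fun v u => D u v) s r t) s fun r _ => phi_le s r t
    simp only [Finset.card_range, smul_eq_mul] at a1 a2
    simp only [hΦ]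
    nlinarith
  have hex : ∃ k ≤ 2 * s ^ 2, Φ (k * (s + 1) + (s + 1)) ≤ Φ (k * (s + 1)) := by
    by_contra hc
    push Not at hc
    have : ∀ k ≤ 2 * s ^ 2 + 1, k ≤ Φ (k * (s + 1)) := by
      intro k hk
      induction k with
      | zero => omega
      | succ k ih =>
        have := hc k (by omega)
        have := ih (by omega)
        rw [Nat.succ_mul]
        omega
    have := this _ le_rfl
    have := hb ((2 * s ^ 2 + 1) * (s + 1))
    omega
  obtain ⟨k, hk, hle⟩ := hex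
  have m1 : ∀ r ∈ Finset.range s, phi P D s r (k * (s + 1)) ≤
      phi P D s r (k * (s + 1) + (s + 1)) := fun r _ => phi_mono h s r (by omega)
  have m2 : ∀ r ∈ Finset.range s, phi (fun t b a => P t a b) (fun v u => D u v) s r (k * (s + 1)) ≤
      phi (fun t b a => P t a b) (fun v u => D u v) s r (k * (s + 1) + (s + 1)) :=
    fun r _ => phi_mono h.swap s r (by omega)
  have s1 := Finset.sum_le_sum m1
  have s2 := Finset.sum_le_sum m2
  simp only [hΦ] at hle
  have e1 := (Finset.sum_eq_sum_iff_of_le m1).1 (by omega)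
  have e2 := (Finset.sum_eq_sum_iff_of_le m2).1 (by omega)
  refine ⟨k * (s + 1) + (s + 1), by nlinarith, fixpt h hD
    (fun r hr => (e1 r (Finset.mem_range.2 hr)).symm)
    (fun r hr => (e2 r (Finset.mem_range.2 hr)).symm)⟩

lemma down {Z : Set (ℕ × ℕ)} (hZ : IsZeroSet Z) {p q : ℕ × ℕ} (hp : p ∈ Z) (h1 : q.1 ≤ p.1)
    (h2 : q.2 ≤ p.2) : q ∈ Z := by
  obtain ⟨I, -, rfl⟩ := hZ
  simp only [mem_iUnion, R, mem_setOf_eq] at hp ⊢
  obtain ⟨i, hi, a, b⟩ := hp
  exact ⟨i, hi, by omega, by omega⟩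

theorem mu_le {Z : Set (ℕ × ℕ)} {s : ℕ} (hZ : IsZeroSet Z) (hs : IsSide Z s) :
    mu Z ≤ ((2 * s ^ 2 + 1) * (s + 1) : ℕ) := by
  refine iSup₂_le fun A hA => ?_
  have h : Dyn (fun t a b => (a, b) ∈ (T Z)^[t] A) (fun u v => ¬ InZ Z u v) := by
    refine ⟨fun t a b => ?_, fun u v u' v' h1 h2 h3 => ?_⟩
    · rw [Function.iterate_succ_apply']; rfl
    · rintro ⟨p, hp, rfl, rfl⟩
      obtain ⟨a, rfl, ha⟩ := ENat.le_coe_iff.1 h1
      obtain ⟨b, rfl, hb⟩ := ENat.le_coe_iff.1 h2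
      exact h3 ⟨(a, b), down hZ hp ha hb, rfl, rfl⟩
  have hD : ¬ InZ Z s s := by
    rintro ⟨p, hp, h1, h2⟩
    have h1' : p.1 = s := by exact_mod_cast h1
    have h2' : p.2 = s := by exact_mod_cast h2
    exact hs.2 fun q hq => down hZ hp (by have := hq.1; omega) (by have := hq.2; omega)
  obtain ⟨t, ht, hfix⟩ := exists_fix h hD
  have hfx : T Z ((T Z)^[t] A) = (T Z)^[t] A := by
    apply Subset.antisymm
    · rintro ⟨a, b⟩ hab
      exact hfix a b (by rw [Function.iterate_succ_apply']; exact hab)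
    · exact subset_union_left
  have hmono : Monotone fun n => (T Z)^[n] A := monotone_nat_of_le_succ fun n => by
    rw [Function.iterate_succ_apply']; exact subset_union_left
  have hu : (T Z)^[t] A = univ := by
    apply eq_univ_of_forall
    intro x
    have : x ∈ ⋃ t : ℕ, (T Z)^[t] A := by rw [hA.2]; trivial
    obtain ⟨n, hn⟩ := mem_iUnion.1 this
    have h1 : x ∈ (T Z)^[n + t] A := hmono (Nat.le_add_right n t) hn
    rwa [Function.iterate_add_apply, Function.iterate_fixed hfx] at h1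
  exact (iInf₂_le t hu).trans (by exact_mod_cast ht)

/-- `μ(Z) ≤ (2 s² + 1)(s + 1)` for every zero-set; hence `μ(Z) ≤ C s^α` for all nonempty
zero-sets, with `α = 3` and `C = 6`. -/
theorem result :
    (∀ (Z : Set (ℕ × ℕ)) (s : ℕ), IsZeroSet Z → IsSide Z s →
      mu Z ≤ ((2 * s ^ 2 + 1) * (s + 1) : ℕ)) ∧
    ∃ α C : ℝ, 0 < α ∧ ∀ (Z : Set (ℕ × ℕ)) (s : ℕ), IsZeroSet Z → Z.Nonempty → IsSide Z s →
      ∃ m : ℕ, mu Z = m ∧ (m : ℝ) ≤ C * (s : ℝ) ^ α := by
  refine ⟨fun Z s => mu_le, 3, 6, by norm_num, fun Z s hZ hne hs => ?_⟩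
  obtain ⟨m, hm, hle⟩ := ENat.le_coe_iff.1 (mu_le hZ hs)
  refine ⟨m, hm, ?_⟩
  have h1 : 1 ≤ s := by
    by_contra hc
    obtain rfl : s = 0 := by omega
    obtain ⟨p, hp⟩ := hne
    exact hs.2 fun q hq => down hZ hp (by have := hq.1; omega) (by have := hq.2; omega)
  have h2 : m ≤ 6 * s ^ 3 := by
    have : s ≤ s ^ 2 := by nlinarith
    have : s ^ 2 ≤ s ^ 3 := by nlinarith
    nlinarith
  rw [show (3 : ℝ) = ((3 : ℕ) : ℝ) by norm_num, Real.rpow_natCast]
  exact_mod_cast h2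

end Pool.Agent.Results.MP_e645df_co.Full
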